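import Pool.Agent.Helper49.PA.GoalsA

/-! Packet CHAIN. -/

namespace PA49.PkCHAIN

theorem NE_of_isom {L : Type} [Lattice L] [BoundedOrder L] {X Y : Type} {s : PSim L X}
    {t : PSim L Y} {f : X → Y} (h : Isom s t f) : NE s t f := fun x y => (h x y).symm.le

theorem NE_comp {L : Type} [Lattice L] [BoundedOrder L] {X Y Z : Type} {s : PSim L X}
    {t : PSim L Y} {w : PSim L Z} {f : X → Y} {g : Y → Z} (hf : NE s t f) (hg : NE t w g) :
    NE s w (g ∘ f) := fun x y => (hf x y).trans (hg _ _)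

/-- chains are mapped by nonexpansive maps -/
theorem chain_map {L : Type} [Lattice L] [BoundedOrder L] {Y W V : Type} {t : PSim L Y}
    {w : PSim L W} {v : PSim L V} {P Q : List (Y × Y)} (hPQ : ∀ p ∈ P, p ∈ Q) {j : W → V}
    (hj : NE w v j) {a b : W} (h : Chain t w P a b) : Chain t v Q (j a) (j b) := by
  unfold Chain at h ⊢
  induction h with
  | rel x y h =>
    obtain ⟨f, hf, p, hp, rfl, rfl⟩ := h
    exact Relation.EqvGen.rel _ _ ⟨j ∘ f, NE_comp hf hj, p, hPQ p hp, rfl, rfl⟩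
  | refl x => exact Relation.EqvGen.refl _
  | symm x y _ ih => exact Relation.EqvGen.symm _ _ ih
  | trans x y z _ _ ih1 ih2 => exact Relation.EqvGen.trans _ _ _ ih1 ih2

theorem chain (h : G_AM1) : G_CHAIN := by
  intro L _ _ Y _ t P
  induction P with
  | nil =>
    refine ⟨Unit, inferInstance, ⟨⟨fun _ _ => ⊤, fun _ => rfl, fun _ _ => rfl,
      fun _ _ _ => le_top⟩, fun _ _ _ => rfl⟩, (), (), rfl, Relation.EqvGen.refl _⟩
  | cons p P ih =>
    obtain ⟨C, hC, c, u, v, hk, hch⟩ := ih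
    obtain ⟨V, hV, w, i, j, hi, hj, hij, hij', -⟩ := h L Y C t c p.2 u
    refine ⟨V, hV, w, i p.1, j v, ?_, ?_⟩
    · rw [hij', hk]
      rfl
    · have h1 : Chain t.toPSim w.toPSim (p :: P) (i p.1) (i p.2) :=
        Relation.EqvGen.rel _ _ ⟨i, NE_of_isom hi, p, List.mem_cons_self, rfl, rfl⟩
      have h2 : Chain t.toPSim w.toPSim (p :: P) (j u) (j v) :=
        chain_map (fun q hq => List.mem_cons_of_mem _ hq) (NE_of_isom hj) hch
      rw [hij] at h1
      exact Relation.EqvGen.trans _ _ _ h1 h2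

end PA49.PkCHAIN
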